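import Pool.Agent.Lib.MP_ef0505_an.Main

/-! Bedford-McMullen carpets obtained by deleting one cell of an `m × n` grid, `3 ≤ m < n`,
are not tube null. -/

namespace Pool.Agent.Results.MP_ef0505_an.NotTubeNull

open MeasureTheory

/-- The map `S_(i,j) (x, y) = ((x + i) / m, (y + j) / n)` of the Euclidean plane. -/
noncomputable def cellMap (m n : ℕ) (d : Fin m × Fin n) (z : EuclideanSpace ℝ (Fin 2)) :
    EuclideanSpace ℝ (Fin 2) :=
  !₂[(((z 0 : ℝ) + ((d.1 : ℕ) : ℝ)) / (m : ℝ) : ℝ), (((z 1 : ℝ) + ((d.2 : ℕ) : ℝ)) / (n : ℝ) : ℝ)]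

/-- `F` is the carpet `F(m, n, D)`: nonempty, compact, and `F = ⋃ d ∈ D, S_d (F)`. -/
def IsCarpet (m n : ℕ) (D : Finset (Fin m × Fin n)) (F : Set (EuclideanSpace ℝ (Fin 2))) : Prop :=
  F.Nonempty ∧ IsCompact F ∧ F = ⋃ d ∈ D, cellMap m n d '' F

/-- `T` is the open `ε`-neighbourhood, for some `ε > 0`, of a segment of length at least `l`. -/
def IsTube (l : ℝ) (T : Set (EuclideanSpace ℝ (Fin 2))) : Prop :=
  ∃ (a b : EuclideanSpace ℝ (Fin 2)) (ε : ℝ), 0 < ε ∧ l ≤ dist a b ∧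
    T = Metric.thickening ε (segment ℝ a b)

/-- `E` can be covered by collections of tubes (about segments of length at least `l`) of
arbitrarily small total area. -/
def TubeNull (l : ℝ) (E : Set (EuclideanSpace ℝ (Fin 2))) : Prop :=
  ∀ δ : ENNReal, 0 < δ → ∃ 𝒯 : Set (Set (EuclideanSpace ℝ (Fin 2))),
    (∀ T ∈ 𝒯, IsTube l T) ∧ E ⊆ ⋃₀ 𝒯 ∧
      ∑' T : 𝒯, volume (T : Set (EuclideanSpace ℝ (Fin 2))) < δ

theorem result (m n : ℕ) (hm : 3 ≤ m) (hmn : m < n) (d₀ : Fin m × Fin n) :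
    ∃ F : Set (EuclideanSpace ℝ (Fin 2)), IsCarpet m n (Finset.univ.erase d₀) F ∧
      ∀ l : ℝ, 0 < l → ¬ TubeNull l F := by
  have hm' : (0 : ℝ) < m := by have : 0 < m := by omega
                               positivity
  have hn' : (0 : ℝ) < n := by have : 0 < n := by omega
                               positivity
  have hcell : ∀ (k : ℕ) (i : Fin k) (x : ℝ), |x| ≤ 1 → |(x + ((i : ℕ) : ℝ)) / (k : ℝ)| ≤ 1 := by
    intro k i x hx
    have h1 : ((i : ℕ) : ℝ) + 1 ≤ k := by exact_mod_cast i.2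
    have h2 : (0 : ℝ) ≤ ((i : ℕ) : ℝ) := by positivity
    rw [abs_div, abs_of_pos (show (0 : ℝ) < k by linarith), div_le_one (by linarith)]
    rw [abs_le] at hx ⊢
    constructor <;> linarith
  obtain ⟨F, hne, hcomp, hF⟩ := Pool.Agent.Lib.MP_ef0505_an.exists_attractor
    (Finset.univ.erase d₀) (by
      rw [← Finset.card_pos, Finset.card_erase_of_mem (Finset.mem_univ _), Finset.card_univ,
        Fintype.card_prod, Fintype.card_fin, Fintype.card_fin]
      have : 3 * 3 ≤ m * n := Nat.mul_le_mul hm (by omega)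
      omega) (cellMap m n)
    (by intro d; unfold cellMap; fun_prop)
    (by
      intro d z z' h
      have h0 := congrArg (fun v : EuclideanSpace ℝ (Fin 2) => v 0) h
      have h1 := congrArg (fun v : EuclideanSpace ℝ (Fin 2) => v 1) h
      simp only [cellMap, Matrix.cons_val_zero, Matrix.cons_val_one] at h0 h1
      rw [div_left_inj' hm'.ne', add_left_inj] at h0
      rw [div_left_inj' hn'.ne', add_left_inj] at h1
      ext i; fin_cases i
      · exact h0
      · exact h1)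
    {z | |z 0| ≤ 1 ∧ |z 1| ≤ 1}
    (by
      apply (isCompact_closedBall (0 : EuclideanSpace ℝ (Fin 2)) 2).of_isClosed_subset
      · have hc : ∀ i : Fin 2, IsClosed {z : EuclideanSpace ℝ (Fin 2) | |z i| ≤ 1} :=
          fun i => isClosed_le (by fun_prop) continuous_const
        exact (hc 0).inter (hc 1)
      · rintro z ⟨h0, h1⟩
        rw [mem_closedBall_zero_iff, EuclideanSpace.norm_eq, Fin.sum_univ_two,
          Real.sqrt_le_left (by norm_num), Real.norm_eq_abs, Real.norm_eq_abs]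
        nlinarith [abs_nonneg (z 0), abs_nonneg (z 1)])
    ⟨0, by simp⟩
    (by
      rintro d _ _ ⟨z, ⟨h0, h1⟩, rfl⟩
      exact ⟨hcell m d.1 _ h0, hcell n d.2 _ h1⟩)
  refine ⟨F, ⟨hne, hcomp, hF⟩, ?_⟩
  intro l hl hnull
  obtain ⟨δ, hδ, h⟩ := Pool.Agent.Lib.MP_ef0505_an.area_ge hm hmn d₀.1 d₀.2 d₀.1.2 d₀.2.2 F hcomp hne
    (by
      intro i hi j hj hij z hz
      rw [hF]
      refine Set.mem_biUnion (x := ((⟨i, hi⟩, ⟨j, hj⟩) : Fin m × Fin n)) ?_ ⟨z, hz, rfl⟩
      simp only [Finset.coe_erase, Finset.coe_univ, Set.mem_sdiff, Set.mem_univ,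
        Set.mem_singleton_iff, true_and]
      rintro rfl
      exact hij ⟨rfl, rfl⟩) l hl
  obtain ⟨𝒯, h1, h2, h3⟩ := hnull δ hδ
  exact absurd (h 𝒯 h1 h2) (not_le.2 h3)

end Pool.Agent.Results.MP_ef0505_an.NotTubeNull
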